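import Pool.Agent.H13.EDM.Targets

/-!
ADS: degrees over a field generated in two steps
-/

set_option autoImplicit false

open MvPolynomial
open Pool.Agent.H12.ZD (pmap)
open Pool.Agent.H18.HIT
open Pool.Agent.H8.ZA (HFam Const NA)
open Pool.Agent.H8.TD (lc dg Wsp)
open Pool.Agent.H8.TX (hn)
open Pool.Agent.H13.EDM

namespace Pool.Agent.H41.EDM

theorem pf_ADS : T_ADS := by
  intro k K _ _ _ S T
  have h : (IntermediateField.adjoin (IntermediateField.adjoin k S) T).restrictScalars k =
      IntermediateField.adjoin k (S ∪ T) := by
    rw [IntermediateField.adjoin_adjoin_left]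
  have h2 : dg k (S ∪ T) = Module.finrank
      ((IntermediateField.adjoin (IntermediateField.adjoin k S) T).restrictScalars k) K := by
    rw [h]
    rfl
  rw [h2]
  rfl

end Pool.Agent.H41.EDM
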